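import Pool.Agent.H90.EH.Targets

/-! # Equivariant Ehrhart theory, module FIX: the span of the fixed cone -/

set_option autoImplicit false

namespace Pool.Agent.H67.EH

open Finset Pool.Agent.H90.EH
open scoped Classical

section

variable {V : Type} [AddCommGroup V] [Module ℚ V]

theorem fix_cone_mem {A : Finset V} {a : V} (ha : a ∈ A) : a ∈ Cone A := by
  refine ⟨fun b => if b = a then 1 else 0, fun b _ => ?_, ?_⟩
  · dsimp only
    split_ifs <;> norm_num
  · rw [Finset.sum_eq_single a]
    · simp
    · intro b _ hb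
      simp [hb]
    · intro h
      exact absurd ha h

theorem fix_cone_zero (A : Finset V) : (0 : V) ∈ Cone A :=
  ⟨fun _ => 0, fun _ _ => le_refl _, by simp⟩

theorem fix_cone_add {A : Finset V} {x y : V} (hx : x ∈ Cone A) (hy : y ∈ Cone A) :
    x + y ∈ Cone A := by
  obtain ⟨c, hc, rfl⟩ := hx
  obtain ⟨d, hd, rfl⟩ := hy
  refine ⟨fun a => c a + d a, fun a ha => add_nonneg (hc a ha) (hd a ha), ?_⟩
  rw [← Finset.sum_add_distrib]
  exact Finset.sum_congr rfl fun a _ => (add_smul _ _ _).symm

theorem fix_cone_smul {A : Finset V} {x : V} {r : ℚ} (hr : 0 ≤ r) (hx : x ∈ Cone A) :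
    r • x ∈ Cone A := by
  obtain ⟨c, hc, rfl⟩ := hx
  refine ⟨fun a => r * c a, fun a ha => mul_nonneg hr (hc a ha), ?_⟩
  rw [Finset.smul_sum]
  exact Finset.sum_congr rfl fun a _ => smul_smul _ _ _

theorem fix_cone_sp {A : Finset V} {x : V} (hx : x ∈ Cone A) : x ∈ Sp A := by
  obtain ⟨c, _, rfl⟩ := hx
  exact Submodule.sum_mem _ fun a ha =>
    Submodule.smul_mem _ _ (Submodule.subset_span (Finset.mem_coe.2 ha))

theorem fix_sp_sum {A : Finset V} {x : V} (hx : x ∈ Sp A) : ∃ c : V → ℚ, x = ∑ a ∈ A, c a • a := by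
  unfold Sp at hx
  induction hx using Submodule.span_induction with
  | mem a ha =>
    obtain ⟨c, _, h⟩ := fix_cone_mem (Finset.mem_coe.1 ha)
    exact ⟨c, h⟩
  | zero => exact ⟨fun _ => 0, by simp⟩
  | add x y _ _ hx hy =>
    obtain ⟨c, rfl⟩ := hx
    obtain ⟨d, rfl⟩ := hy
    refine ⟨fun a => c a + d a, ?_⟩
    rw [← Finset.sum_add_distrib]
    exact Finset.sum_congr rfl fun a _ => (add_smul _ _ _).symm
  | smul r x _ hx =>
    obtain ⟨c, rfl⟩ := hx
    refine ⟨fun a => r * c a, ?_⟩
    rw [Finset.smul_sum]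
    exact Finset.sum_congr rfl fun a _ => smul_smul _ _ _

end

theorem pf_FIX : T_FIX := by
  intro V _ _ ψ A AF p hp hC hA hF x
  constructor
  · intro hx
    constructor
    · have h : (AF : Set V) ⊆ (Sp A : Set V) := fun a ha =>
        fix_cone_sp ((hF a).1 (fix_cone_mem (Finset.mem_coe.1 ha))).1
      exact (Submodule.span_le.2 h) hx
    · obtain ⟨c, rfl⟩ := fix_sp_sum hx
      rw [map_sum]
      refine Finset.sum_congr rfl fun a ha => ?_
      rw [map_smul, ((hF a).1 (fix_cone_mem ha)).2]
  · rintro ⟨hx, hψ⟩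
    have hp0 : (p : ℚ) ≠ 0 := by positivity
    have hpow : ∀ i : ℕ, (ψ ^ i) x = x := by
      intro i
      induction i with
      | zero => rfl
      | succ i ih => rw [pow_succ, Module.End.mul_apply, hψ, ih]
    have hmem : ∀ (i : ℕ) (y : V), y ∈ Cone A → (ψ ^ i) y ∈ Cone A := by
      intro i
      induction i with
      | zero => intro y hy; exact hy
      | succ i ih =>
        intro y hy
        rw [pow_succ, Module.End.mul_apply]
        exact ih _ (hC y hy)
    have hav : ∀ a ∈ A, (∑ i ∈ Finset.range p, (ψ ^ i) a) ∈ Sp AF := by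
      intro a ha
      refine fix_cone_sp ((hF _).2 ⟨?_, ?_⟩)
      · have : ∀ s : Finset ℕ, (∑ i ∈ s, (ψ ^ i) a) ∈ Cone A := by
          intro s
          induction s using Finset.induction_on with
          | empty => simpa using fix_cone_zero A
          | insert i s his ih =>
            rw [Finset.sum_insert his]
            exact fix_cone_add (hmem i a (fix_cone_mem ha)) ih
        exact this _
      · rw [map_sum]
        have h1 : ∀ i, ψ ((ψ ^ i) a) = (ψ ^ (i + 1)) a := by
          intro i
          rw [pow_succ', Module.End.mul_apply]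
        rw [Finset.sum_congr rfl fun i _ => h1 i]
        have h2 := Finset.sum_range_succ (fun i => (ψ ^ i) a) p
        have h3 := Finset.sum_range_succ' (fun i => (ψ ^ i) a) p
        have h4 : (ψ ^ 0) a = a := rfl
        rw [hA a ha] at h2
        rw [h4] at h3
        exact add_right_cancel (h3.symm.trans h2)
    obtain ⟨c, hc⟩ := fix_sp_sum hx
    have hsum : (p : ℚ) • x = ∑ a ∈ A, c a • ∑ i ∈ Finset.range p, (ψ ^ i) a := by
      calc (p : ℚ) • x = ∑ i ∈ Finset.range p, (ψ ^ i) x := by
            rw [Finset.sum_congr rfl fun i _ => hpow i, Finset.sum_const, Finset.card_range,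
              Nat.cast_smul_eq_nsmul]
        _ = ∑ i ∈ Finset.range p, ∑ a ∈ A, c a • (ψ ^ i) a := by
            refine Finset.sum_congr rfl fun i _ => ?_
            conv_lhs => rw [hc]
            rw [map_sum]
            exact Finset.sum_congr rfl fun a _ => map_smul _ _ _
        _ = ∑ a ∈ A, c a • ∑ i ∈ Finset.range p, (ψ ^ i) a := by
            rw [Finset.sum_comm]
            exact Finset.sum_congr rfl fun a _ => (Finset.smul_sum).symm
    have h1 : x = (p : ℚ)⁻¹ • ((p : ℚ) • x) := by
      rw [smul_smul, inv_mul_cancel₀ hp0, one_smul]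
    rw [h1, hsum]
    exact Submodule.smul_mem _ _ (Submodule.sum_mem _ fun a ha =>
      Submodule.smul_mem _ _ (hav a ha))

end Pool.Agent.H67.EH
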